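import Mathlib
import Pool.Agent.J4.H9.BolTame2

/-!
# Free Bol loops of exponent two have wild automorphisms

The answer to the question is no, already for two generators. Let `B` be a free Bol loop of exponent
two with free generators `x`, `y`, and write `R a` for the right multiplication by `a`. The right
multiplications are closed under conjugation by right multiplications. So every product `h` of right
multiplications which fixes `1` is an automorphism of `B`. Take
`h = (R x)(R y)(R x)(R y)(R c)` with `c = ((x y) x) y`, that is
`h : p ↦ ((((p x) y) x) y) (((x y) x) y)`.

The four kinds of elementary automorphisms for two generators preserve the subgroup generated by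
`R x`, `R y`, `R (x y)`, hence also the orbit `P` of `1` under this group. But `h` maps `x ∈ P` to
`((y x) y) c`, which is not in `P`: in the explicit model of the free loop (`K7.H87.BL`) the points
of `P` use only the letters `x`, `y` and one letter for `x y`, while the letter of the right
multiplication by `c` is a new one.
-/

set_option autoImplicit false

namespace Pool.Agent.Results.MP_e74ac0_al.WildAutomorphism

open Pool.Agent.K7.H87.BL Pool.Agent.J4.H9.BolTame

/-- There is a free Bol loop of exponent two with two free generators; and every such loop `B`
(with free generators `ι 0`, `ι 1`) has an automorphism which is not tame, that is, which is not in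
the subgroup generated by the elementary automorphisms. One such automorphism is
`p ↦ ((((p x) y) x) y) (((x y) x) y)` with `x = ι 0`, `y = ι 1`. -/
theorem result :
    (∃ (B : Type) (_ : BolLoop B) (ι : Fin 2 → B), IsFree ι) ∧
    ∀ (B : Type) [BolLoop B] (ι : Fin 2 → B), IsFree ι →
      ∃ φ : B ≃* B,
        (∀ p : B, φ p = ((((p * ι 0) * ι 1) * ι 0) * ι 1) * (((ι 0 * ι 1) * ι 0) * ι 1)) ∧
        φ ∉ Subgroup.closure {ψ : B ≃* B | Elem ι ψ} :=
  ⟨⟨Pt (Fin 2), inferInstance, gn, pt_free (Fin 2)⟩,
    fun _ _ ι h => ⟨wild (ι 0) (ι 1), fun _ => rfl, main ι h⟩⟩

end Pool.Agent.Results.MP_e74ac0_al.WildAutomorphism
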